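import Pool.Agent.Q70.AhA

/-!
# Affine classes of the extreme tracial states of `C*(ℤ² ⋉ ℤ[1/6])`

Let `G` be the group generated by `x ↦ 2 x`, `x ↦ 3 x`, `x ↦ x + 1` on `ℚ`, a copy of
`ℤ² ⋉ ℤ[1/6]`.  The tracial states of `C*(G)` are the normalised positive definite class functions
`φ` on `G`.  For an extreme one the dichotomy of the problem (`φ` is the regular trace or is
conditionally finite-dimensional) is equivalent to a bound for the number of the functions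
`k ↦ φ (u ^ (n k))`, `1 ≤ n ≤ N`, counted up to characters of `ℤ`, where `u` is the translation
by `1`: finitely many for all `n`, or fewer than `N ^ (1 - α)` for one `N` in every long interval
`[M, M ^ c]`; and to the existence of many coincidences with another trace.
-/

set_option autoImplicit false

open MeasureTheory Filter Topology
open scoped ComplexOrder

namespace Pool.Agent.Results.MP_81910f_an.AffineClasses

/-- **The affine classes of an extreme tracial state.**  For an extreme tracial state `φ` the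
following are equivalent:
1. `φ` is the regular trace or is conditionally finite-dimensional (its translates by the
  translations span a finite-dimensional space);
2. the functions `k ↦ φ (u ^ (n k))` on `ℤ`, `n ≥ 1`, are finite in number;
3. for some `α > 0`, `c` and `N₀` every interval `[M, M ^ c]`, `M ≥ N₀`, contains an `N` for which
  these functions, `n ≤ N`, fall into fewer than `N ^ (1 - α)` classes up to multiplication by
  characters `k ↦ z ^ k`, `|z| = 1`;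
4. for some `0 ≤ 2 β < α`, `c` and `N₀` every interval `[M, M ^ c]`, `M ≥ N₀`, contains an `N` for
  which there are a tracial state `ψ` and `N ^ α` pairs `(n, d)` of coprime integers, `0 < |n| ≤ N`,
  `1 ≤ d ≤ N ^ β`, such that `k ↦ φ (u ^ (n k))` is `k ↦ ψ (u ^ (d k))` up to a character. -/
theorem result (s2 s3 t : Equiv.Perm ℚ) (h2 : ∀ x : ℚ, s2 x = 2 * x) (h3 : ∀ x : ℚ, s3 x = 3 * x)
    (ht : ∀ x : ℚ, t x = x + 1) (G : Subgroup (Equiv.Perm ℚ))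
    (hG : G = Subgroup.closure {s2, s3, t}) (u : G)
    (hu : ∀ x : ℚ, (u : Equiv.Perm ℚ) x = x + 1) (φ : G → ℂ)
    (hφ : φ ∈ Set.extremePoints ℝ {ψ : G → ℂ | ψ 1 = 1 ∧ (∀ g h : G, ψ (h * g * h⁻¹) = ψ g) ∧
      ∀ (s : Finset G) (c : G → ℂ), 0 ≤ ∑ i ∈ s, ∑ j ∈ s, star (c j) * c i * ψ (j⁻¹ * i)}) :
    List.TFAE [
      φ = Set.indicator ({1} : Set G) (fun _ => (1 : ℂ)) ∨
        FiniteDimensional ℂ (Submodule.span ℂ {F : G → ℂ | ∃ n : G,
          (∃ r : ℚ, ∀ x : ℚ, (n : Equiv.Perm ℚ) x = x + r) ∧ F = fun x => φ (n * x)}),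
      ∃ F : Finset (ℤ → ℂ), ∀ n : ℕ, 1 ≤ n → ∃ f ∈ F, ∀ k : ℤ, φ (u ^ ((n : ℤ) * k)) = f k,
      ∃ α : ℝ, 0 < α ∧ ∃ c N₀ : ℕ, ∀ M : ℕ, N₀ ≤ M → ∃ N : ℕ, M ≤ N ∧ N ≤ M ^ c ∧
        ∃ F : Finset (ℤ → ℂ), (F.card : ℝ) < (N : ℝ) ^ (1 - α) ∧
          ∀ n : ℕ, 1 ≤ n → n ≤ N → ∃ f ∈ F, ∃ z : ℂ, ‖z‖ = 1 ∧
            ∀ k : ℤ, φ (u ^ ((n : ℤ) * k)) = z ^ k * f k,
      ∃ α β : ℝ, 0 ≤ β ∧ 2 * β < α ∧ ∃ c N₀ : ℕ, ∀ M : ℕ, N₀ ≤ M → ∃ N : ℕ, M ≤ N ∧ N ≤ M ^ c ∧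
        ∃ ψ ∈ {ψ : G → ℂ | ψ 1 = 1 ∧ (∀ g h : G, ψ (h * g * h⁻¹) = ψ g) ∧
          ∀ (s : Finset G) (c : G → ℂ), 0 ≤ ∑ i ∈ s, ∑ j ∈ s, star (c j) * c i * ψ (j⁻¹ * i)},
          (N : ℝ) ^ α ≤ ({s : ℤ × ℕ | s.1 ≠ 0 ∧ |s.1| ≤ N ∧ 1 ≤ s.2 ∧ (s.2 : ℝ) ≤ (N : ℝ) ^ β ∧
            s.1.gcd s.2 = 1 ∧ ∃ z : ℂ, ‖z‖ = 1 ∧
              ∀ k : ℤ, φ (u ^ (s.1 * k)) = z ^ k * ψ (u ^ ((s.2 : ℤ) * k))}.ncard : ℝ)] :=
  Q70.Ah.trace_classes s2 s3 t h2 h3 ht G hG u hu φ hφ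

end Pool.Agent.Results.MP_81910f_an.AffineClasses
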