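import Pool.Agent.Q138.PS.UF
import Pool.Agent.Results.MP_81910f_an.UniversalMultipliers

/-!
# Universal multipliers `⌊α P(n)⌋` for the extreme traces of `C*(ℤ² ⋉ ℤ[1/6])`

Let `q ≥ 2`. Outside a set of real numbers of Hausdorff dimension at most `q / (q + 1 / (q 2 ^ (q - 1)))` (that is
`8 / 9` for `q = 2`) every `α > 0` has the following property, for every integral polynomial `P` of degree `q` with positive
leading coefficient and every `κ > 0`: there is ONE set `D` of natural numbers, missing at most `κ N` of the numbers up to `N` for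
all large `N`, such that every extreme tracial state `φ` of `C*(G)` is conditionally finite-dimensional or satisfies
`φ (g ^ ⌊α P(n)⌋) → 0` as `n → ∞` in `D` for every translation `g ≠ 1`.
-/

set_option autoImplicit false

open Finset Filter Topology
open scoped ComplexOrder
open Pool.Agent.Q138.PS

namespace Pool.Agent.Results.MP_81910f_an.MultipliersAlongRealMultiples

/-- `g` is the translation by a rational number -/
def IsTranslation (g : Equiv.Perm ℚ) : Prop := ∃ r : ℚ, ∀ x : ℚ, g x = x + r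

/-- `φ` is an extreme tracial state of `C*(G)`: an extreme point of the set of the normalised positive definite class
functions on `G` -/
def ExtremeTrace (G : Subgroup (Equiv.Perm ℚ)) (φ : G → ℂ) : Prop :=
  φ ∈ Set.extremePoints ℝ {ψ : G → ℂ | ψ 1 = 1 ∧ (∀ g h : G, ψ (h * g * h⁻¹) = ψ g) ∧
    ∀ (s : Finset G) (c : G → ℂ), 0 ≤ ∑ i ∈ s, ∑ j ∈ s, star (c j) * c i * ψ (j⁻¹ * i)}

/-- `φ` is conditionally finite-dimensional: its translates by the translations in `G` span a space of finite dimension -/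
def CondFinDim (G : Subgroup (Equiv.Perm ℚ)) (φ : G → ℂ) : Prop :=
  FiniteDimensional ℂ (Submodule.span ℂ {F : G → ℂ | ∃ n : G, IsTranslation (n : Equiv.Perm ℚ) ∧ F = fun x => φ (n * x)})

/-- the number `⌊α P(n)⌋` -/
noncomputable def fl (α : ℝ) (P : Polynomial ℤ) (n : ℕ) : ℕ := ⌊α * ((P.eval (n : ℤ) : ℤ) : ℝ)⌋₊

theorem fl_tendsto {α : ℝ} (hα : 0 < α) {P : Polynomial ℤ} (hdeg : 2 ≤ P.natDegree) (hlead : 0 < P.leadingCoeff) :
    Tendsto (fl α P) atTop atTop := by
  have h1 : ∀ n : ℕ, ((P.eval (n : ℤ) : ℤ) : ℝ) = (P.map (Int.castRingHom ℝ)).eval (n : ℝ) := by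
    intro n
    have := Polynomial.eval_intCast_map (Int.castRingHom ℝ) P (n : ℤ)
    push_cast at this
    exact this.symm
  have hd : (P.map (Int.castRingHom ℝ)).natDegree = P.natDegree :=
    Polynomial.natDegree_map_eq_of_injective Int.cast_injective P
  have hl : (P.map (Int.castRingHom ℝ)).leadingCoeff = ((P.leadingCoeff : ℤ) : ℝ) := by
    rw [Polynomial.leadingCoeff_map_of_injective Int.cast_injective]
    rfl
  have h2 : Tendsto (fun x : ℝ => (P.map (Int.castRingHom ℝ)).eval x) atTop atTop := by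
    refine Polynomial.tendsto_atTop_of_leadingCoeff_nonneg _ ?_ ?_
    · rw [← Polynomial.natDegree_pos_iff_degree_pos, hd]
      omega
    · rw [hl]
      exact_mod_cast hlead.le
  have h3 : Tendsto (fun n : ℕ => α * ((P.eval (n : ℤ) : ℤ) : ℝ)) atTop atTop := by
    simp only [h1]
    exact (h2.comp tendsto_natCast_atTop_atTop).const_mul_atTop hα
  exact tendsto_nat_floor_atTop.comp h3

theorem seed_cn (C : Set ℕ) (η : ℝ) (h : ∀ N : ℕ, ((Nat.card {c : ℕ | c < N ∧ c ∉ C} : ℕ) : ℝ) ≤ η * N) (y : ℕ) :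
    cn (fun c => c ∉ C) y ≤ η * (y + 1) := by
  have h1 := h (y + 1)
  rw [cn_ncard]
  refine le_trans ?_ (h1.trans (le_of_eq (by push_cast; ring)))
  have hfin : {c : ℕ | c < y + 1 ∧ c ∉ C}.Finite := (Set.finite_Iio (y + 1)).subset fun c hc => hc.1
  rw [Nat.card_coe_set_eq]
  refine Nat.cast_le.2 (Set.ncard_le_ncard ?_ hfin)
  rintro c ⟨-, h2, h3⟩
  exact ⟨Nat.lt_succ_of_le h2, h3⟩

theorem card_inst {p p' : ℕ → Prop} (i1 : DecidablePred p) (i2 : DecidablePred p') (h : ∀ n, p n ↔ p' n)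
    (s : Finset ℕ) : (s.filter p).card = (s.filter p').card := by
  congr 1
  ext n
  simp only [mem_filter, h]

open Classical in
/-- **Theorem.** Let `q ≥ 2`. There is a set `E` of Hausdorff dimension at most `q / (q + 1 / (q 2 ^ (q - 1)))` such that for
each `α > 0` outside `E`, each `P ∈ ℤ[X]` of degree `q` with positive leading coefficient and each `κ > 0` there is a set `D` of
natural numbers such that at most `κ N` of the `n ≤ N` are not in `D`, for all large `N`, with the following property. Let `G` be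
the group generated by `x ↦ 2 x`, `x ↦ 3 x`, `x ↦ x + 1` on `ℚ`. Every extreme tracial state `φ` of `C*(G)`
* is conditionally finite-dimensional, or satisfies `φ (g ^ ⌊α P(n)⌋) → 0` as `n → ∞` in `D` for every translation `g ≠ 1` of `G`;
* is the regular trace or conditionally finite-dimensional if `φ (g ^ ⌊α P(n)⌋) = φ (g)` for all translations `g` of `G` and all
  `n` in some infinite subset of `D`. -/
theorem result (q : ℕ) (hq : 2 ≤ q) :
    ∃ E : Set ℝ, dimH E ≤ ENNReal.ofReal (q / (q + 1 / ((q : ℝ) * 2 ^ (q - 1)))) ∧ ∀ α : ℝ, 0 < α → α ∉ E →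
      ∀ P : Polynomial ℤ, P.natDegree = q → 0 < P.leadingCoeff → ∀ κ : ℝ, 0 < κ → ∃ D : Set ℕ,
      (∀ᶠ N : ℕ in atTop, (((Icc 1 N).filter (fun n => n ∉ D)).card : ℝ) ≤ κ * N) ∧
      ∀ (s2 s3 t : Equiv.Perm ℚ), (∀ x : ℚ, s2 x = 2 * x) → (∀ x : ℚ, s3 x = 3 * x) →
      (∀ x : ℚ, t x = x + 1) →
      ∀ (G : Subgroup (Equiv.Perm ℚ)), G = Subgroup.closure {s2, s3, t} → ∀ φ : G → ℂ, ExtremeTrace G φ →
        (CondFinDim G φ ∨ ∀ g : G, g ≠ 1 → IsTranslation (g : Equiv.Perm ℚ) →
          Tendsto (fun n : ℕ => φ (g ^ fl α P n)) (atTop ⊓ 𝓟 D) (𝓝 0)) ∧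
        ∀ S : Set ℕ, S ⊆ D → S.Infinite →
          (∀ n ∈ S, ∀ g : G, IsTranslation (g : Equiv.Perm ℚ) → φ (g ^ fl α P n) = φ g) →
          φ = Set.indicator ({1} : Set G) (fun _ => (1 : ℂ)) ∨ CondFinDim G φ := by
  have hs := fun j : ℕ => Pool.Agent.Results.MP_81910f_an.UniversalMultipliers.result (1 / (2 * ((j : ℝ) + 1)))
    (by positivity)
  choose C hC1 hC2 using hs
  obtain ⟨E, hE, h⟩ := dens_nat q hq (fun j c => c ∉ C j) (fun j : ℕ => 1 / (2 * ((j : ℝ) + 1))) (fun j δ hδ => by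
    have ht : Tendsto (fun y : ℕ => δ * (y : ℝ)) atTop atTop := tendsto_natCast_atTop_atTop.const_mul_atTop hδ
    filter_upwards [ht.eventually_ge_atTop (1 / (2 * ((j : ℝ) + 1)))] with y hy
    refine (seed_cn (C j) _ (hC1 j) y).trans ?_
    linarith)
  refine ⟨E, hE, fun α hα hαE P hdeg hlead κ hκ => ?_⟩
  obtain ⟨j, hj⟩ := exists_nat_one_div_lt hκ
  obtain ⟨η, hη, h1⟩ := h α hα hαE j
  have hfl := fl_tendsto hα (P := P) (by omega) hlead
  refine ⟨{n | fl α P n ∈ C j}, ?_, fun s2 s3 t h2 h3 ht G hG φ hφ => ?_⟩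
  · have hco : ∀ᶠ N : ℕ in atTop, ∀ i, |((P.coeff i : ℤ) : ℝ)| ≤ (N : ℝ) ^ η := by
      obtain ⟨B, hB⟩ : ∃ B : ℝ, ∀ i, |((P.coeff i : ℤ) : ℝ)| ≤ B := by
        refine ⟨∑ i ∈ P.support, |((P.coeff i : ℤ) : ℝ)|, fun i => ?_⟩
        by_cases hi : i ∈ P.support
        · exact Finset.single_le_sum (f := fun i => |((P.coeff i : ℤ) : ℝ)|) (fun _ _ => abs_nonneg _) hi
        · rw [Polynomial.notMem_support_iff.1 hi]
          simp only [Int.cast_zero, abs_zero]
          positivity
      filter_upwards [((tendsto_rpow_atTop hη).comp tendsto_natCast_atTop_atTop).eventually_ge_atTop B] with N hN i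
      exact (hB i).trans hN
    filter_upwards [h1 (1 / (2 * ((j : ℝ) + 1))) (by positivity), hco] with N hN hN2
    have h4 := hN P hdeg hlead hN2
    refine le_trans (le_of_eq ?_) (h4.trans ?_)
    · unfold cnP cn
      exact congrArg _ (card_inst _ _ (fun n => Iff.rfl) _)
    have h6 : (1 / (2 * ((j : ℝ) + 1)) + 1 / (2 * ((j : ℝ) + 1))) = 1 / ((j : ℝ) + 1) := by
      field_simp
      norm_num
    rw [h6]
    have : (0 : ℝ) ≤ N := Nat.cast_nonneg N
    gcongr
  obtain ⟨k1, k2⟩ := hC2 j s2 s3 t h2 h3 ht G hG φ hφ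
  refine ⟨k1.imp (fun hk => hk) (fun hk g hg hgt => ?_), fun S hS hSi hSφ => ?_⟩
  · have h4 : Tendsto (fl α P) (atTop ⊓ 𝓟 {n | fl α P n ∈ C j}) (atTop ⊓ 𝓟 (C j)) :=
      tendsto_inf.2 ⟨hfl.mono_left inf_le_left, tendsto_principal.2 (eventually_inf_principal.2
        (Eventually.of_forall fun n hn => hn))⟩
    exact (hk g hg hgt).comp h4
  · refine k2 (fl α P '' S) ?_ ?_ ?_
    · rintro c ⟨n, hn, rfl⟩
      exact hS hn
    · intro hfin
      refine hSi (Set.Finite.subset ?_ (Set.subset_preimage_image (fl α P) S))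
      have h4 : Tendsto (fl α P) cofinite cofinite := by
        rw [Nat.cofinite_eq_atTop]
        exact hfl
      have h5 := h4 hfin.compl_mem_cofinite
      rw [Filter.mem_map, mem_cofinite, ← Set.preimage_compl, compl_compl] at h5
      exact h5
    · rintro c ⟨n, hn, rfl⟩ g hg
      exact hSφ n hn g hg

end Pool.Agent.Results.MP_81910f_an.MultipliersAlongRealMultiples
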