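import Mathlib
import Pool.Agent.H104.SVT.Main

/-!
# Schur powers of the extreme tracial states of `C*(ℤ² ⋉ ℤ[1/6])`

Let `G` be the group generated by `x ↦ 2 x`, `x ↦ 3 x`, `x ↦ x + 1` on `ℚ`, a copy of
`ℤ² ⋉ ℤ[1/6]`.  The tracial states of `C*(G)` are the normalised positive definite class functions
`φ` on `G`; they form a semigroup under pointwise multiplication.  For an extreme `φ` the dichotomy of
the problem (`φ` is the regular trace or conditionally finite-dimensional) is equivalent to:
some power `φ ^ k`, `k ≥ 2`, dominates a positive multiple of `φ` on the translations; and also to: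
for one translation `g ≠ 1` and one monomial `φ̄ ^ j φ ^ k` of degree at least two the spectral
distributions of `g` under `φ` and under the monomial are not mutually singular.  The reason is that
the product of an extreme trace other than the regular one with any diffuse trace is singular to it
on every nontrivial translation.
-/

set_option autoImplicit false

open MeasureTheory Filter Topology
open scoped ComplexOrder

namespace Pool.Agent.Results.MP_81910f_an.SchurPowers

/-- `g` is the translation by a rational number -/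
def IsTranslation (g : Equiv.Perm ℚ) : Prop := ∃ r : ℚ, ∀ x : ℚ, g x = x + r

variable {G : Subgroup (Equiv.Perm ℚ)}

/-- `φ` is a tracial state of `C*(G)`: a normalised positive definite class function on `G` -/
def IsTrace (φ : G → ℂ) : Prop :=
  φ 1 = 1 ∧ (∀ g h : G, φ (h * g * h⁻¹) = φ g) ∧
    ∀ (s : Finset G) (c : G → ℂ), 0 ≤ ∑ i ∈ s, ∑ j ∈ s, star (c j) * c i * φ (j⁻¹ * i)

/-- `μ` is the spectral distribution of `g` under `φ` -/
def IsSpectral (φ : G → ℂ) (g : G) (μ : Measure UnitAddCircle) : Prop :=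
  IsProbabilityMeasure μ ∧ ∀ n : ℤ, ∫ x, fourier n x ∂μ = φ (g ^ n)

/-- **Schur powers of an extreme tracial state.**  Let `φ` be an extreme tracial state of `C*(G)` and
`u` the translation by `1`.

(A) If `φ` is not the regular trace and `ψ` is a tracial state which is diffuse, that is, the averages
of `|ψ (u ^ n)|²` over `0 ≤ n < N` tend to `0`, then for every translation `g ≠ 1` the spectral
distributions of `g` under `φ ψ` and under `φ̄ ψ` are singular to the one under `φ`.

(B) The following are equivalent: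
1. `φ` is the regular trace or is conditionally finite-dimensional (its translates by the
  translations span a finite-dimensional space);
2. for some `k ≥ 2` and `c > 0` the function `φ ^ k - c φ` is positive definite on the translations;
3. for some `j, k` with `j + k ≥ 2` and some translation `g ≠ 1` the spectral distribution of `g`
  under `φ̄ ^ j φ ^ k` is not singular to the one under `φ`. -/
theorem result (s2 s3 t : Equiv.Perm ℚ) (h2 : ∀ x : ℚ, s2 x = 2 * x) (h3 : ∀ x : ℚ, s3 x = 3 * x)
    (ht : ∀ x : ℚ, t x = x + 1) (G : Subgroup (Equiv.Perm ℚ))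
    (hG : G = Subgroup.closure {s2, s3, t}) (u : G)
    (hu : ∀ x : ℚ, (u : Equiv.Perm ℚ) x = x + 1) (φ : G → ℂ)
    (hφ : φ ∈ Set.extremePoints ℝ {ψ : G → ℂ | IsTrace ψ}) :
    (φ ≠ Set.indicator ({1} : Set G) (fun _ => (1 : ℂ)) → ∀ ψ : G → ℂ, IsTrace ψ →
      Tendsto (fun N : ℕ => (1 / (N : ℝ)) * ∑ n ∈ Finset.range N, ‖ψ (u ^ n)‖ ^ 2) atTop (𝓝 0) →
      ∀ g : G, g ≠ 1 → IsTranslation (g : Equiv.Perm ℚ) →
        ∃ μ ν ν' : Measure UnitAddCircle, IsSpectral φ g μ ∧
          IsSpectral (fun h => φ h * ψ h) g ν ∧ IsSpectral (fun h => star (φ h) * ψ h) g ν' ∧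
          ν ⟂ₘ μ ∧ ν' ⟂ₘ μ) ∧
    List.TFAE [
      φ = Set.indicator ({1} : Set G) (fun _ => (1 : ℂ)) ∨
        FiniteDimensional ℂ (Submodule.span ℂ {F : G → ℂ | ∃ n : G,
          IsTranslation (n : Equiv.Perm ℚ) ∧ F = fun x => φ (n * x)}),
      ∃ (k : ℕ) (c : ℝ), 2 ≤ k ∧ 0 < c ∧ ∀ (s : Finset G) (a : G → ℂ),
        (∀ i ∈ s, IsTranslation (i : Equiv.Perm ℚ)) →
          0 ≤ ∑ i ∈ s, ∑ j ∈ s, star (a j) * a i * (φ (j⁻¹ * i) ^ k - c * φ (j⁻¹ * i)),
      ∃ (j k : ℕ) (g : G), 2 ≤ j + k ∧ g ≠ 1 ∧ IsTranslation (g : Equiv.Perm ℚ) ∧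
        ∃ μ ν : Measure UnitAddCircle, IsSpectral φ g μ ∧
          IsSpectral (fun h => star (φ h) ^ j * φ h ^ k) g ν ∧ ¬ ν ⟂ₘ μ] :=
  ⟨fun hne _ hψ hd _ hg1 hg => Pool.Agent.H104.SVT.mainA h2 h3 ht hG hu hφ hne hψ hd hg1 hg,
    Pool.Agent.H104.SVT.mainB h2 h3 ht hG hu hφ⟩

end Pool.Agent.Results.MP_81910f_an.SchurPowers
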