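import Mathlib
import Pool.Agent.H104.SVT.Slow

/-!
# Uniform slow variation of the tracial states of `C*(ℤ² ⋉ ℤ[1/6])` along the powers of translations

Let `G` be the group generated by `x ↦ 2 x`, `x ↦ 3 x`, `x ↦ x + 1` on `ℚ`, a copy of
`ℤ² ⋉ ℤ[1/6]`.  The tracial states of `C*(G)` are the normalised positive definite class functions
`φ` on `G`.  For ALL of them, extreme or not, the averages of `1 - Re φ (g ^ n)` and of
`1 - |φ (g ^ n)|²` over `n ≤ N` are asymptotically constant on each range `[N, N ^ C]`, for every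
translation `g`, with `N₀ (C, ε)` independent of the trace and of `g`; the spectral distribution of
`g` varies slowly near `1`.  The same holds for all conditionally negative definite class functions
on `G`, bounded or not, and for the squared displacements of a common fixed point of `x ↦ 2 x` and
`x ↦ 3 x` under an isometric action of `G` on a real Hilbert space.
-/

set_option autoImplicit false

open MeasureTheory
open scoped ComplexOrder

namespace Pool.Agent.Results.MP_81910f_an.SlowVariationOfTraces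

/-- `g` is the translation by a rational number -/
def IsTranslation (g : Equiv.Perm ℚ) : Prop := ∃ r : ℚ, ∀ x : ℚ, g x = x + r

variable {G : Subgroup (Equiv.Perm ℚ)}

/-- `φ` is a tracial state of `C*(G)`: a normalised positive definite class function on `G` -/
def IsTrace (φ : G → ℂ) : Prop :=
  φ 1 = 1 ∧ (∀ g h : G, φ (h * g * h⁻¹) = φ g) ∧
    ∀ (s : Finset G) (c : G → ℂ), 0 ≤ ∑ i ∈ s, ∑ j ∈ s, star (c j) * c i * φ (j⁻¹ * i)

/-- `ψ` is a conditionally negative definite class function on `G` with `ψ 1 = 0` -/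
def CondNeg (ψ : G → ℝ) : Prop :=
  ψ 1 = 0 ∧ (∀ g, ψ g⁻¹ = ψ g) ∧ (∀ g h : G, ψ (h * g * h⁻¹) = ψ g) ∧
    ∀ (s : Finset G) (c : G → ℝ), ∑ i ∈ s, c i = 0 → ∑ i ∈ s, ∑ j ∈ s, c i * c j * ψ (j⁻¹ * i) ≤ 0

/-- the average of `ψ (g ^ n)` over `1 ≤ n ≤ N` -/
noncomputable def avg (ψ : G → ℝ) (g : G) (N : ℕ) : ℝ :=
  (1 / (N : ℝ)) * ∑ m ∈ Finset.range N, ψ (g ^ (m + 1))

/-- For every translation `g` and all `N ≥ N₀` the average of `ψ (g ^ n)` over `1 ≤ n ≤ M` is at most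
`1 + ε` times the average over `1 ≤ n ≤ N` for `N ≤ M ≤ N ^ C`, and the values `ψ (g ^ n)`,
`n ≤ N ^ C`, are at most `2 + ε` times this average. -/
def VariesSlowly (C ε : ℝ) (N₀ : ℕ) (ψ : G → ℝ) : Prop :=
  ∀ g : G, IsTranslation (g : Equiv.Perm ℚ) → ∀ N : ℕ, N₀ ≤ N →
    (∀ M : ℕ, N ≤ M → (M : ℝ) ≤ (N : ℝ) ^ C → avg ψ g M ≤ (1 + ε) * avg ψ g N) ∧
    (∀ n : ℕ, (n : ℝ) ≤ (N : ℝ) ^ C → ψ (g ^ n) ≤ (2 + ε) * avg ψ g N)

/-- **Slow variation of the tracial states.**  For all `C ≥ 1` and `ε > 0` there are `N₀` and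
`0 < r₀ < 1` such that for the group `G` generated by `x ↦ 2 x`, `x ↦ 3 x`, `x ↦ x + 1` on `ℚ`:

(1) for every tracial state `φ` of `C*(G)` the functions `1 - Re φ` and `1 - |φ|²` vary slowly along
the powers of the translations, with the constants `C, ε, N₀`;

(2) so does every conditionally negative definite class function on `G`;

(3) so does `g ↦ ‖α (g) x - x‖²` for every isometric action `α` of `G` on a real inner product
space and every point `x` fixed by the two generators `x ↦ 2 x`, `x ↦ 3 x`;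

(4) for every tracial state `φ` and every translation `g` the spectral distribution `μ` of `g` under
`φ` satisfies `μ {‖x‖ ≥ r ^ C} ≤ (1 + ε) μ {‖x‖ ≥ r}`,
`log (1 / r) μ {r / 2 ≤ ‖x‖ < r} ≤ ε μ {‖x‖ ≥ r}`, and every arc of radius `r` is, up to mass `ε`,
contained in an arc of radius `r ^ C`, for all `0 < r ≤ r₀`. -/
theorem result.{u} (C ε : ℝ) (hC : 1 ≤ C) (hε : 0 < ε) :
    ∃ (N₀ : ℕ) (r₀ : ℝ), 0 < r₀ ∧ r₀ < 1 ∧
      ∀ (s2 s3 t : Equiv.Perm ℚ), (∀ x : ℚ, s2 x = 2 * x) → (∀ x : ℚ, s3 x = 3 * x) →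
      (∀ x : ℚ, t x = x + 1) →
      ∀ (G : Subgroup (Equiv.Perm ℚ)), G = Subgroup.closure {s2, s3, t} →
        (∀ φ : G → ℂ, IsTrace φ → VariesSlowly C ε N₀ (fun g => 1 - (φ g).re) ∧
          VariesSlowly C ε N₀ (fun g => 1 - ‖φ g‖ ^ 2)) ∧
        (∀ ψ : G → ℝ, CondNeg ψ → VariesSlowly C ε N₀ ψ) ∧
        (∀ (E : Type u) [NormedAddCommGroup E] [InnerProductSpace ℝ E] (α : G →* (E ≃ᵢ E)) (x : E),
          (∀ h : G, (h : Equiv.Perm ℚ) = s2 ∨ (h : Equiv.Perm ℚ) = s3 → α h x = x) →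
            VariesSlowly C ε N₀ (fun g => ‖α g x - x‖ ^ 2)) ∧
        (∀ φ : G → ℂ, IsTrace φ → ∀ g : G, IsTranslation (g : Equiv.Perm ℚ) →
          ∃ μ : Measure UnitAddCircle, IsProbabilityMeasure μ ∧
            (∀ n : ℤ, ∫ x, fourier n x ∂μ = φ (g ^ n)) ∧
            ∀ r : ℝ, 0 < r → r ≤ r₀ →
              μ.real {x | r ^ C ≤ ‖x‖} ≤ (1 + ε) * μ.real {x | r ≤ ‖x‖} ∧
              Real.log (1 / r) * μ.real {x | r / 2 ≤ ‖x‖ ∧ ‖x‖ < r} ≤ ε * μ.real {x | r ≤ ‖x‖} ∧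
              ∀ y : UnitAddCircle, ∃ y' : UnitAddCircle,
                μ.real (Metric.ball y r \ Metric.ball y' (r ^ C)) ≤ ε) := by
  have hT := Pool.Agent.H104.SVT.two_gen
  obtain ⟨N0, -, hav⟩ := Pool.Agent.Q190.SV.cnd_slow hT hC hε
  obtain ⟨r1, hr1, hr1', h1⟩ := Pool.Agent.Q190.SV.slow_r hT (C := C) hε
  obtain ⟨r2, hr2, hr2', h2⟩ := Pool.Agent.Q190.SV.local_r hT hε
  obtain ⟨r3, hr3, hr3', h3⟩ := Pool.Agent.Q190.SV.arcs hT hC hε
  refine ⟨N0, min r1 (min r2 r3), lt_min hr1 (lt_min hr2 hr3), (min_le_left _ _).trans_lt hr1', ?_⟩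
  intro s2 s3 t hs2 hs3 ht G hG
  have key : ∀ ψ : G → ℝ, Pool.Agent.H104.SVT.CN ψ →
      (∀ S : G, (S : Equiv.Perm ℚ) = s2 ∨ (S : Equiv.Perm ℚ) = s3 → ∀ h : G, ψ (S * h * S⁻¹) = ψ h) →
      VariesSlowly C ε N0 ψ := fun ψ hψ hinv g hg N hN =>
    Pool.Agent.H104.SVT.slow_of hav hs2 hs3 hG hψ hinv hg hN
  refine ⟨fun φ hφ => ⟨?_, ?_⟩, fun ψ hψ => ?_, fun E _ _ α x hx => ?_, fun φ hφ g hg => ?_⟩
  · exact key _ (Pool.Agent.H104.SVT.cn_one_sub hφ.2.2 hφ.1) fun S _ h => by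
      simp only [hφ.2.1]
  · exact key _ (Pool.Agent.H104.SVT.cn_one_sub_sq hφ.2.2 hφ.1) fun S _ h => by
      simp only [hφ.2.1]
  · exact key _ ⟨hψ.1, hψ.2.1, hψ.2.2.2⟩ fun S _ h => hψ.2.2.1 h S
  · have h4 := key _ (Pool.Agent.H104.SVT.cn_dist α x) fun S hS h =>
      Pool.Agent.H104.SVT.dist_conj α (hx S hS) h
    simpa only [dist_eq_norm] using h4
  · obtain ⟨μ, hμ, hc⟩ := Pool.Agent.H104.SVT.spectral hφ.2.2 hφ.1 g
    have hinv := Pool.Agent.H104.SVT.spectral_inv hs2 hs3 hG hφ.2.1 hg hc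
    refine ⟨μ, hμ, hc, fun r hr hrr => ?_⟩
    refine ⟨h1 r hr (hrr.trans (min_le_left _ _)) μ hμ hinv,
      h2 r hr (hrr.trans ((min_le_right _ _).trans (min_le_left _ _))) μ hμ hinv, fun y => ?_⟩
    obtain ⟨y', _, hy'⟩ := h3 r hr (hrr.trans ((min_le_right _ _).trans (min_le_right _ _))) μ hμ
      hinv y
    exact ⟨y', hy'⟩

end Pool.Agent.Results.MP_81910f_an.SlowVariationOfTraces
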